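import Pool.Agent.K3h2.LT.Stm3

/-!
# Brick LOW3 of project LT: the lower bound for the speed near a fixed point, ternary tree (after the
file LOW of helper91)
-/

set_option autoImplicit false
set_option maxHeartbeats 400000

open Filter Topology

namespace Pool.Agent.K3h59.LT

open Pool.Agent.K3h2.LT

theorem dom_le {C a : ℝ} {k : ℤ} (hC : 1 ≤ C) (h : a ≤ C * (1 / 2) ^ k.natAbs) : a ≤ C := by
  have h1 : ((1 : ℝ) / 2) ^ k.natAbs ≤ 1 := pow_le_one₀ (by norm_num) (by norm_num)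
  have h2 : C * (1 / 2) ^ k.natAbs ≤ C * 1 := mul_le_mul_of_nonneg_left h1 (by linarith)
  linarith

theorem t_LOW3 : S3_LOWA → S3_FIX → S_SUB → S_UNI → S3_ONE → S3_LOW := by
  intro hLOWA hFIX hSUB hUNI hONE C L s lam hO M hM x0 ρ hx0 hρ hy
  by_contra hcon
  have hC := hO.Cpos
  -- the data for every `j`
  have h1 : ∀ j : ℕ, ∃ (n : ℕ) (y : ℤ → ℝ) (δ : ℝ) (k : ℤ), j ≤ n ∧
      (∀ k, |s n k - x0 k| ≤ 1 / ((j : ℝ) + 1)) ∧ Fx3 C L y ∧ y M = s n M ∧ 0 ≤ δ ∧
      (∀ k, |s (n + 2) k - s n k| ≤ δ) ∧ 4 * ((j : ℝ) + 1) * δ < |s n k - y k| := by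
    intro j
    have hj : (0 : ℝ) < (j : ℝ) + 1 := by positivity
    by_contra hno
    apply hcon
    refine ⟨min (ρ / 2) (1 / ((j : ℝ) + 1)), 4 * ((j : ℝ) + 1), j, ?_, by positivity, ?_⟩
    · exact lt_min (by linarith) (by positivity)
    · intro n hn hk
      have h2 : |s n M - x0 M| < ρ := by
        have := (hk M).trans (min_le_left _ _)
        linarith
      obtain ⟨y, hFy, hyM⟩ := hy _ h2
      refine ⟨y, hFy, fun δ hδ h3 k => ?_⟩
      by_contra h4
      exact hno ⟨n, y, δ, k, hn, fun k => (hk k).trans (min_le_right _ _), hFy, hyM, hδ, h3,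
        not_le.1 h4⟩
  choose n y δ k0 hn hs hF hyM hδ0 hδ hk0 using h1
  have hbs : ∀ m k, 0 ≤ s m k ∧ s m k ≤ C := fun m k => ⟨hO.nonneg m k, dom_le hC (hO.dom m k)⟩
  have hby : ∀ j k, 0 ≤ y j k ∧ y j k ≤ C := fun j k =>
    ⟨((hF j).pos k).le, dom_le hC ((hF j).dom k)⟩
  have hbd : ∀ j, BddAbove (Set.range fun k => |s (n j) k - y j k|) := by
    intro j
    refine ⟨C, ?_⟩
    rintro _ ⟨k, rfl⟩
    have h2 := hbs (n j) k
    have h3 := hby j k
    show |s (n j) k - y j k| ≤ C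
    rw [abs_le]
    constructor <;> linarith
  set η : ℕ → ℝ := fun j => ⨆ k, |s (n j) k - y j k| with hη
  have hle : ∀ j k, |s (n j) k - y j k| ≤ η j := fun j k => le_ciSup (hbd j) k
  have hnn : ∀ j : ℕ, (0 : ℝ) < (j : ℝ) + 1 := fun j => by positivity
  have hpos : ∀ j : ℕ, 4 * ((j : ℝ) + 1) * δ j < η j := fun j => (hk0 j).trans_le (hle j _)
  have hη0 : ∀ j, 0 < η j := fun j =>
    lt_of_le_of_lt (mul_nonneg (by have := hnn j; linarith) (hδ0 j)) (hpos j)
  have h1j : Tendsto (fun j : ℕ => 1 / ((j : ℝ) + 1)) atTop (𝓝 0) :=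
    tendsto_one_div_add_atTop_nhds_zero_nat
  have hnt : Tendsto n atTop atTop := tendsto_atTop_mono hn tendsto_id
  have hsx : ∀ k, Tendsto (fun j => s (n j) k) atTop (𝓝 (x0 k)) := by
    intro k
    rw [tendsto_iff_norm_sub_tendsto_zero]
    exact squeeze_zero (fun _ => norm_nonneg _) (fun j => by
      rw [Real.norm_eq_abs]
      exact hs j k) h1j
  have hone : ∀ k, Tendsto (fun j => s (n j + 1) k - s (n j) k) atTop (𝓝 0) := by
    intro k
    rw [Metric.tendsto_atTop]
    intro ε hε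
    obtain ⟨N, hN⟩ := hONE C L s lam hO (ε / 2) (by linarith)
    obtain ⟨N', hN'⟩ := (tendsto_atTop.1 hnt N).exists_forall_of_atTop
    refine ⟨N', fun j hj => ?_⟩
    rw [Real.dist_eq, sub_zero]
    have := hN (n j) (hN' j hj) k
    linarith
  have hsx1 : ∀ k, Tendsto (fun j => s (n j + 1) k) atTop (𝓝 (x0 k)) := by
    intro k
    have h2 := (hone k).add (hsx k)
    rw [zero_add] at h2
    exact h2.congr fun j => by ring
  have hyx : ∀ k, Tendsto (fun j => y j k) atTop (𝓝 (x0 k)) := by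
    intro k
    apply tendsto_of_subseq_tendsto
    intro ns hns
    obtain ⟨ψ, x, hψ, hx⟩ := hSUB (fun i => y (ns i)) C (fun i k => by
      have h3 := hby (ns i) k
      rw [abs_le]
      constructor <;> linarith)
    refine ⟨ψ, ?_⟩
    have hFx : Fx3 C L x := hFIX.2.1 C L (fun j => y (ns (ψ j))) x hO.Lpos hC (fun j => hF _) hx
    have hxM : x M = x0 M := by
      refine tendsto_nhds_unique (hx M) ?_
      have h4 : Tendsto (fun j => ns (ψ j)) atTop atTop := hns.comp hψ.tendsto_atTop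
      exact ((hsx M).comp h4).congr fun j => (hyM _).symm
    have hxx : x = x0 := hFIX.2.2 C L x x0 M hO.Lpos hC hM hFx hx0 hxM
    rw [← hxx]
    exact hx k
  have hη1 : Tendsto η atTop (𝓝 0) := by
    rw [Metric.tendsto_atTop]
    intro ε hε
    obtain ⟨N, hN⟩ := (hUNI C y x0 (fun j k => ⟨(hby j k).1, (hF j).dom k⟩) hyx).1 (ε / 4)
      (by linarith)
    obtain ⟨N', hN'⟩ := (Metric.tendsto_atTop.1 h1j) (ε / 4) (by linarith)
    refine ⟨max N N', fun j hj => ?_⟩
    have h2 := hN j ((le_max_left _ _).trans hj)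
    have h3 := hN' j ((le_max_right _ _).trans hj)
    rw [Real.dist_eq, sub_zero] at h3
    have h3' := (le_abs_self _).trans h3.le
    have h4 : η j ≤ ε / 2 := by
      refine ciSup_le fun k => ?_
      have h5 := h2 k
      have h6 := hs j k
      have h7 : |s (n j) k - y j k| ≤ |s (n j) k - x0 k| + |y j k - x0 k| := by
        have h8 : s (n j) k - y j k = (s (n j) k - x0 k) - (y j k - x0 k) := by ring
        rw [h8]
        exact abs_sub _ _
      linarith
    rw [Real.dist_eq, sub_zero, abs_of_pos (hη0 j)]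
    linarith
  refine hLOWA C L s lam hO M hM n y η x0 hx0 hF hη0 hη1 hle ?_ ?_ (fun j => (hyM j).symm) hsx hsx1
    hyx
  · intro j
    have h2 : 3 / 4 * η j < ⨆ k, |s (n j) k - y j k| := by
      have := hη0 j
      show 3 / 4 * η j < η j
      linarith
    obtain ⟨k, hk⟩ := exists_lt_of_lt_ciSup h2
    exact ⟨k, hk.le⟩
  · intro j k
    refine (hδ j k).trans ?_
    rw [le_div_iff₀ (hnn j)]
    have h2 := hpos j
    have h3 := mul_nonneg (hnn j).le (hδ0 j)
    nlinarith

end Pool.Agent.K3h59.LT
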